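import Pool.Agent.H17.It4

set_option autoImplicit false

namespace Pool.Agent.Results.MP_5491ed_gt.Sigma

theorem result (X Y : Type) [TopologicalSpace X] [TopologicalSpace Y] [T35Space X] [T35Space Y]
    (φ : {F : {f : X → ℝ // Continuous f} → ℝ // Continuous F} ≃ₜ
      {F : {f : Y → ℝ // Continuous f} → ℝ // Continuous F})
    (hY : SigmaCompactSpace Y) : SigmaCompactSpace X :=
  Pool.Agent.H17.It.sigc φ.symm

end Pool.Agent.Results.MP_5491ed_gt.Sigma
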